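import Pool.Agent.Lib.helper3.MC
import Pool.Agent.Lib.helper3.AR1

namespace Pool.Agent.H.MP_0b4a43_pr

open MeasureTheory Filter Topology Set Pool.Agent.Lib.helper3.AR
open scoped ENNReal

section mm

variable {F : Type} [NormedAddCommGroup F]

noncomputable def mm (x : F) : ℝ≥0∞ := ENNReal.ofReal (min 1 ‖x‖)

lemma mm_cont : Continuous (mm (F := F)) :=
  ENNReal.continuous_ofReal.comp (continuous_const.min continuous_norm)

lemma min_le {a b c : ℝ} (hb : 0 ≤ b) (hc : 0 ≤ c) (h : a ≤ c * b) : min 1 a ≤ (1 + c) * min 1 b := by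
  rcases le_total 1 b with h1 | h1
  · rw [min_eq_left h1]
    linarith [min_le_left 1 a]
  · rw [min_eq_right h1]
    linarith [min_le_right 1 a]

lemma mm_le {F' : Type} [NormedAddCommGroup F'] {x : F} {y : F'} {c : ℝ} (hc : 0 ≤ c)
    (h : ‖x‖ ≤ c * ‖y‖) : mm x ≤ ENNReal.ofReal (1 + c) * mm y := by
  rw [mm, mm, ← ENNReal.ofReal_mul (by positivity)]
  exact ENNReal.ofReal_le_ofReal (min_le (norm_nonneg _) hc h)

lemma mm_add (x y : F) : mm (x + y) ≤ mm x + mm y := by
  rw [mm, mm, mm, ← ENNReal.ofReal_add (by positivity) (by positivity)]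
  refine ENNReal.ofReal_le_ofReal ?_
  have := norm_add_le x y
  have := norm_nonneg x
  have := norm_nonneg y
  simp only [min_def]
  split_ifs <;> linarith

end mm

variable {E : Type} [NormedAddCommGroup E] [NormedSpace ℝ E] [FiniteDimensional ℝ E]

lemma opn (t : Set E) : ∃ (ι : Type) (_ : Fintype ι) (v : ι → E) (C : ℝ), 0 < C ∧ (∀ i, v i ∈ t) ∧
    ∀ (A : E →L[ℝ] E), (∀ y ∈ Submodule.span ℝ t, A y = 0) ∨
      ∃ j, ∀ y ∈ Submodule.span ℝ t, ‖A y‖ ≤ C * ‖y‖ * ‖A (v j)‖ := by
  obtain ⟨b, h1, h2, h3⟩ := exists_linearIndependent ℝ t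
  have := h3.finite
  obtain ⟨C, h4, h5⟩ := (Module.Basis.span h3).exists_opNorm_le (F := E)
  have h6 : ∀ (A : E →L[ℝ] E) M, 0 ≤ M → (∀ i : b, ‖A i‖ ≤ M) →
      ∀ y ∈ Submodule.span ℝ t, ‖A y‖ ≤ C * ‖y‖ * M := fun A M hM h y hy => by
    have := (A.comp (Submodule.subtypeL _)).le_of_opNorm_le
      (h5 hM fun i => by simpa using h i) ⟨y, by rwa [Subtype.range_coe, h2]⟩
    rw [mul_right_comm]
    simpa using this
  refine ⟨b, Fintype.ofFinite _, (↑), C, h4, fun i => h1 i.2, fun A => ?_⟩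
  cases isEmpty_or_nonempty b
  · exact Or.inl fun y hy => by simpa using h6 A 0 le_rfl (fun i => isEmptyElim i) y hy
  · obtain ⟨j, hj⟩ := Finite.exists_max fun i : b => ‖A i‖
    exact Or.inr ⟨j, h6 A _ (norm_nonneg _) hj⟩

lemma supp [MeasurableSpace E] [BorelSpace E] (ν : Measure E) [IsFiniteMeasure ν] :
    ∀ᵐ y ∂ν, ∃ K ≠ ∞, ∀ A : E →L[ℝ] E, mm (A y) ≤ K * ∫⁻ z, mm (A z) ∂ν := by
  have := FiniteDimensional.proper_real E
  obtain ⟨ι, _, v, C, hC, hv, h⟩ := opn ν.support
  filter_upwards [ν.support_mem_ae] with y hy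
  have h1 : ∀ i, ν (Metric.ball (v i) (1 / (2 * C))) ≠ 0 := fun i =>
    ((ν.mem_support_iff_forall _).mp (hv i) _ (Metric.ball_mem_nhds _ (by positivity))).ne'
  refine ⟨ENNReal.ofReal (1 + C * ‖y‖) * ENNReal.ofReal (1 + 2) *
    ∑ i, (ν (Metric.ball (v i) (1 / (2 * C))))⁻¹, ENNReal.mul_ne_top (by finiteness)
      (ENNReal.sum_ne_top.mpr fun i _ => by simpa using h1 i), fun A => ?_⟩
  obtain h | ⟨j, h⟩ := h A
  · simp [mm, h y (Submodule.subset_span hy)]
  refine (mm_le (by positivity) (h y (Submodule.subset_span hy))).trans ?_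
  rw [mul_assoc, mul_assoc]
  refine mul_le_mul_right (le_trans ?_ (mul_le_mul_right (mul_le_mul_left
    (Finset.single_le_sum (f := fun i => (ν (Metric.ball (v i) (1 / (2 * C))))⁻¹)
      (fun _ _ => zero_le) (Finset.mem_univ j)) _) _)) _
  rw [mul_left_comm, ← ENNReal.mul_le_iff_le_inv (h1 j) (measure_ne_top _ _),
    ← lintegral_const_mul' _ _ ENNReal.ofReal_ne_top, mul_comm,
    ← lintegral_indicator_const measurableSet_ball]
  refine lintegral_mono_ae ?_
  filter_upwards [ν.support_mem_ae] with z hz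
  by_cases hz' : z ∈ Metric.ball (v j) (1 / (2 * C))
  swap
  · exact (indicator_of_notMem hz' _).trans_le zero_le
  rw [indicator_of_mem hz']
  refine mm_le zero_le_two ?_
  have h2 := h (v j - z) (sub_mem (Submodule.subset_span (hv j)) (Submodule.subset_span hz))
  rw [mem_ball_iff_norm', lt_div_iff₀ (by positivity)] at hz'
  have h3 := norm_sub_norm_le (A (v j)) (A z)
  rw [← map_sub] at h3
  nlinarith [norm_nonneg (A (v j))]

variable {G : Type} [Group G] [MeasurableSpace G]

lemma flip (μ : Measure G) [IsProbabilityMeasure μ] [MeasurableInv G] (hs : μ.map Inv.inv = μ)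
    (t : ℕ) (φ : G → ℝ≥0∞) (hφ : Measurable fun ω => φ (X ω t)) :
    ∫⁻ ω, φ (X ω t)⁻¹ ∂(Measure.infinitePi fun _ => μ) =
      ∫⁻ ω, φ (X ω t) ∂(Measure.infinitePi fun _ => μ) := by
  have h1 := Measure.map_infinitePi_infinitePi_of_inj (P := fun _ : ℕ => μ)
    (f := fun i => if i < t then t - 1 - i else i) fun i j h => by
      simp only at h
      split_ifs at h <;> omega
  have h2 := Measure.infinitePi_map_pi (fun _ : ℕ => μ) (f := fun _ => Inv.inv)
    fun _ => measurable_inv
  simp only [hs] at h2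
  conv_rhs => rw [← h2, lintegral_map hφ (by fun_prop), ← h1,
    lintegral_map (f := fun a : ℕ → G => φ (X (fun i => (a i)⁻¹) t))
      (hφ.comp (f := fun (a : ℕ → G) i => (a i)⁻¹) (by fun_prop)) (by fun_prop)]
  refine lintegral_congr fun ω => ?_
  rw [X, List.prod_inv_reverse]
  congr 2
  refine List.ext_getElem (by simp) fun i h3 h4 => ?_
  simp at h3 ⊢
  rw [if_pos h3]

theorem core [TopologicalSpace G] [IsTopologicalGroup G] [BorelSpace G] (μ : Measure G)
    [IsProbabilityMeasure μ] (had : ∀ H : Subgroup G, IsClosed (H : Set G) → μ H = 1 → H = ⊤)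
    (hs : μ.map Inv.inv = μ) (b : G → E) (hb : Continuous b) (b1 : b 1 = 0)
    (hsp : Submodule.span ℝ (range b) = ⊤) (ρ : G → E →L[ℝ] E)
    (hρ : ∀ g h, ρ g (b h) = b (g * h) - b g)
    (hc : ∀ᵐ ω ∂(Measure.infinitePi fun _ => μ),
      Tendsto (fun t => b (X ω (t + 1)) - b (X ω t)) atTop (𝓝 0)) : Subsingleton E := by
  have := FiniteDimensional.proper_real E
  borelize E
  have ρ1 : ρ 1 = 1 := ContinuousLinearMap.coe_injective
    (LinearMap.ext_on_range hsp fun g => by simp [hρ, b1])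
  have ρm : ∀ g h, ρ (g * h) = ρ g * ρ h := fun g h => ContinuousLinearMap.coe_injective
    (LinearMap.ext_on_range hsp fun k => by simp [hρ, mul_assoc])
  have ρc : Continuous ρ := continuous_clm_apply.mpr fun y => by
    have hy : y ∈ Submodule.span ℝ (range b) := hsp ▸ Submodule.mem_top
    induction hy using Submodule.span_induction with
    | mem x hx =>
      obtain ⟨h, rfl⟩ := hx
      simp only [hρ]
      fun_prop
    | zero => simpa using continuous_const
    | add x y _ _ hx hy => simp only [map_add]; fun_prop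
    | smul c x _ hx => simp only [map_smul]; fun_prop
  have hm : ∀ t, Measurable fun ω : ℕ → G => ρ (X ω t) := fun t => by
    induction t with
    | zero => exact (measurable_const : Measurable fun _ : ℕ → G => ρ 1)
    | succ t ih =>
      simp only [X_succ, ρm]
      exact ih.mul (ρc.measurable.comp (measurable_pi_apply t))
  have hm2 : ∀ t y, Measurable fun ω : ℕ → G => mm (ρ (X ω t) y) := fun t y =>
    (mm_cont.comp (ContinuousLinearMap.apply ℝ E y).continuous).measurable.comp (hm t)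
  set P : Measure (ℕ → G) := Measure.infinitePi fun _ => μ
  let N : Submodule ℝ E :=
    { carrier := {y | Tendsto (fun t => ∫⁻ ω, mm (ρ (X ω t) y) ∂P) atTop (𝓝 0)}
      zero_mem' := by simp [mm]
      add_mem' := fun {x y} hx hy => tendsto_of_tendsto_of_tendsto_of_le_of_le tendsto_const_nhds
        (by simpa using hx.add hy) (fun _ => zero_le) fun t => by
          rw [← lintegral_add_left (hm2 t x)]
          exact lintegral_mono fun ω => by simpa using mm_add _ _
      smul_mem' := fun c x hx => tendsto_of_tendsto_of_tendsto_of_le_of_le tendsto_const_nhds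
        (by simpa using (ENNReal.Tendsto.const_mul (a := ENNReal.ofReal (1 + ‖c‖)) hx
          (Or.inr ENNReal.ofReal_ne_top))) (fun _ => zero_le) fun t => by
          rw [← lintegral_const_mul _ (hm2 t x)]
          exact lintegral_mono fun ω => mm_le (norm_nonneg c) (by rw [map_smul, norm_smul]; rfl) }
  have key : ∀ Φ : G → E, Continuous Φ →
      Tendsto (fun t => ∫⁻ ω, mm (ρ (X ω t) (Φ (ω t))) ∂P) atTop (𝓝 0) → ∀ᵐ u ∂μ, Φ u ∈ N := by
    intro Φ hΦ h
    filter_upwards [ae_of_ae_map hΦ.measurable.aemeasurable (supp (μ.map Φ))] with u ⟨K, hK, h1⟩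
    refine tendsto_of_tendsto_of_tendsto_of_le_of_le tendsto_const_nhds
      (by simpa using (ENNReal.Tendsto.const_mul h (Or.inr hK))) (fun _ => zero_le) fun t => ?_
    rw [Lib.helper3.MC.indep_past μ t (fun ω => ρ (X ω t)) (hm t) (fun ω ω' h => by
      rw [X, X, List.map_congr_left fun i hi => h i (List.mem_range.mp hi)])
      (fun z => mm (z.1 (Φ z.2))) (mm_cont.comp (by fun_prop)).measurable,
      ← lintegral_const_mul' _ _ hK]
    refine lintegral_mono fun ω => (h1 _).trans_eq ?_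
    exact congrArg _ (lintegral_map (mm_cont.comp (ρ _).continuous).measurable hΦ.measurable)
  have k1 : ∀ᵐ u ∂μ, b u ∈ N := key b hb (by
    simpa using tendsto_lintegral_of_dominated_convergence (μ := P) (f := fun _ => 0) (fun _ => 1)
      (F := fun t ω => mm (ρ (X ω t) (b (ω t)))) (fun t => (mm_cont.comp
        (by fun_prop : Continuous fun z : (E →L[ℝ] E) × E => z.1 z.2)).measurable.comp
          ((hm t).prodMk (hb.measurable.comp (measurable_pi_apply t))))
      (fun t => .of_forall fun ω => by simp [mm]) (by simp) (hc.mono fun ω h => by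
        simpa [show mm (0 : E) = 0 by simp [mm], hρ, X_succ, Function.comp_def] using
          (mm_cont.tendsto 0).comp h))
  have k2 : ∀ᵐ u ∂μ, ∀ e ∈ N, ρ u e ∈ N := by
    have : ∀ᵐ u ∂μ, ∀ i, ρ u (Module.finBasis ℝ N i) ∈ N := ae_all_iff.mpr fun i =>
      key _ (by fun_prop) (by
        simpa [X_succ, ρm] using (tendsto_add_atTop_iff_nat 1).mpr (Module.finBasis ℝ N i).2)
    filter_upwards [this] with u hu e he
    rw [show e = _ from congrArg Subtype.val ((Module.finBasis ℝ N).sum_repr ⟨e, he⟩).symm]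
    simp only [Submodule.coe_sum, Submodule.coe_smul, map_sum, map_smul]
    exact N.sum_mem fun i _ => N.smul_mem _ (hu i)
  let H : Subgroup G :=
    { carrier := {g | b g ∈ N ∧ (∀ e ∈ N, ρ g e ∈ N) ∧ ∀ e ∈ N, ρ g⁻¹ e ∈ N}
      one_mem' := by simp [b1, ρ1]
      mul_mem' := fun {g h} ⟨g1, g2, g3⟩ ⟨h1, h2, h3⟩ =>
        ⟨by simpa [hρ] using N.add_mem (g2 _ h1) g1, fun e he => by simpa [ρm] using g2 _ (h2 e he),
          fun e he => by simpa [ρm] using h3 _ (g3 e he)⟩
      inv_mem' := fun {g} ⟨g1, g2, g3⟩ =>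
        ⟨by simpa [hρ, b1] using g3 _ g1, g3, by simpa using g2⟩ }
  have hN := N.closed_of_finiteDimensional
  have hH : IsClosed (H : Set G) := by
    have : ∀ σ : G → G, Continuous σ → IsClosed {g | ∀ e ∈ N, ρ (σ g) e ∈ N} := fun σ hσ => by
      simp only [ofPred_forall]
      exact isClosed_iInter fun e => isClosed_iInter fun _ =>
        hN.preimage (f := fun g => ρ (σ g) e) (by fun_prop)
    exact (hN.preimage hb).inter ((this _ continuous_id).inter (this _ continuous_inv))
  have k3 := had H hH ((mem_ae_iff_prob_eq_one hH.measurableSet).mp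
    (k1.and (k2.and (ae_of_ae_map measurable_inv.aemeasurable (hs.symm ▸ k2)))))
  have k4 : ∀ y, y ∈ N := fun y => (Submodule.span_le.mpr (by
    rintro _ ⟨g, rfl⟩
    exact (k3 ▸ Subgroup.mem_top g : g ∈ H).1) : Submodule.span ℝ (range b) ≤ N)
      (hsp ▸ Submodule.mem_top)
  by_contra hE
  have := not_subsingleton_iff_nontrivial.mp hE
  obtain ⟨ι, _, v, C, hC, -, h⟩ := opn (univ : Set E)
  have k5 : ∀ A : E →L[ℝ] E, mm A ≤ ENNReal.ofReal (1 + C) * ∑ i, mm (A (v i)) := fun A => by
    obtain h | ⟨j, h⟩ := h A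
    · simp [mm, show A = 0 from ContinuousLinearMap.ext fun y => h y (by simp)]
    · exact (mm_le hC.le (A.opNorm_le_bound (by positivity) fun y =>
        (h y (by simp)).trans_eq (mul_right_comm _ _ _))).trans (mul_le_mul_right
          (Finset.single_le_sum (f := fun i => mm (A (v i))) (fun _ _ => zero_le)
            (Finset.mem_univ j)) _)
  have k6 : Tendsto (fun t => ∫⁻ ω, mm (ρ (X ω t)) ∂P) atTop (𝓝 0) :=
    tendsto_of_tendsto_of_tendsto_of_le_of_le tendsto_const_nhds
      (by simpa using (ENNReal.Tendsto.const_mul (a := ENNReal.ofReal (1 + C))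
        (tendsto_finsetSum Finset.univ fun i _ => k4 (v i)) (Or.inr ENNReal.ofReal_ne_top)))
      (fun _ => zero_le) fun t => by
        rw [← lintegral_finsetSum _ fun i _ => hm2 t (v i),
          ← lintegral_const_mul' _ _ ENNReal.ofReal_ne_top]
        exact lintegral_mono fun ω => k5 _
  have k7 : ∀ g, 1 ≤ mm (ρ g) + mm (ρ g⁻¹) := fun g => by
    have := norm_mul_le (ρ g) (ρ g⁻¹)
    rw [← ρm, mul_inv_cancel, ρ1, norm_one] at this
    rcases le_total 1 ‖ρ g‖ with h | h
    · simp [mm, h]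
    · have : 1 ≤ ‖ρ g⁻¹‖ := by nlinarith [norm_nonneg (ρ g⁻¹)]
      simp [mm, this]
  refine absurd (ge_of_tendsto' (k6.add k6) fun t => ?_) (by simp : ¬ (1 : ℝ≥0∞) ≤ 0 + 0)
  nth_rewrite 2 [← flip μ hs t (fun g => mm (ρ g)) (mm_cont.measurable.comp (hm t))]
  rw [← lintegral_add_left (f := fun ω => mm (ρ (X ω t))) (mm_cont.measurable.comp (hm t))]
  exact le_trans (by simp) (lintegral_mono fun ω => k7 _)

theorem main [TopologicalSpace G] [IsTopologicalGroup G] [BorelSpace G] (μ : Measure G)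
    [IsProbabilityMeasure μ] (had : ∀ H : Subgroup G, IsClosed (H : Set G) → μ H = 1 → H = ⊤)
    (hs : ∀ A, MeasurableSet A → μ A⁻¹ = μ A) (f : G → ℝ) (hf : Continuous f)
    (hc : ∀ x, ∀ᵐ ω ∂(Measure.infinitePi fun _ => μ),
      ∃ l, Tendsto (fun t => f (x * X ω t)) atTop (𝓝 l))
    (hd : FiniteDimensional ℝ (Submodule.span ℝ (range fun γ x => f (γ⁻¹ * x)))) (g : G) :
    f g = f 1 := by
  classical
  obtain ⟨s, h1, h2⟩ := (Submodule.fg_span_iff_fg_span_finset_subset _).mp
    ((Submodule.fg_top _).mp hd.fg_top)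
  choose γ hγ using fun i : s => h1 i.2
  have h3 : ∀ a, ∃ c : s → ℝ, ∀ x, f (a * x) = ∑ j, c j * f ((γ j)⁻¹ * x) := fun a => by
    have : (fun x => f (a⁻¹⁻¹ * x)) ∈ Submodule.span ℝ (range fun j : s => (j : G → ℝ)) := by
      rw [Subtype.range_coe_subtype, Finset.setOfPred_mem, ← h2]
      exact Submodule.subset_span ⟨a⁻¹, rfl⟩
    obtain ⟨c, hc⟩ := (Submodule.mem_span_range_iff_exists_fun ℝ).mp this
    exact ⟨c, fun x => by simpa [← hγ] using (congrFun hc x).symm⟩
  choose c hc' using h3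
  let b : G → s → ℝ := fun y i => f ((γ i)⁻¹ * y) - f ((γ i)⁻¹ * 1)
  let M : G → (s → ℝ) →ₗ[ℝ] (s → ℝ) := fun a => Matrix.toLin' fun i j => c ((γ i)⁻¹ * a) j
  have h4 : ∀ a y, M a (b y) = b (a * y) - b a := fun a y => by
    funext i
    have e1 := hc' ((γ i)⁻¹ * a) y
    have e2 := hc' ((γ i)⁻¹ * a) 1
    simp only [mul_assoc, mul_one] at e1 e2
    simp only [M, b, Matrix.toLin'_apply, Matrix.mulVec, dotProduct, mul_sub,
      Finset.sum_sub_distrib, mul_one, ← e1, ← e2, Pi.sub_apply]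
    ring
  have h5 : ∀ y, b y ∈ Submodule.span ℝ (range b) := fun y => Submodule.subset_span ⟨y, rfl⟩
  have h6 : ∀ a, ∀ e ∈ Submodule.span ℝ (range b), M a e ∈ Submodule.span ℝ (range b) :=
    fun a e he => (Submodule.span_le (s := range b)
      (p := Submodule.comap (M a) (Submodule.span ℝ (range b)))).mpr (by
      rintro _ ⟨y, rfl⟩
      exact Submodule.mem_comap.mpr ((h4 a y).symm ▸ sub_mem (h5 _) (h5 _))) he
  have := core μ had (Measure.ext fun A hA => (Measure.map_apply measurable_inv hA).trans (hs A hA))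
    (fun y => (⟨b y, h5 y⟩ : Submodule.span ℝ (range b))) (by fun_prop) (by ext; simp [b])
    ((Submodule.span_range_subtype_eq_top_iff _ h5).mpr rfl)
    (fun a => LinearMap.toContinuousLinearMap ((M a).restrict (h6 a)))
    (fun a y => Subtype.ext (h4 a y))
    ((ae_all_iff.mpr fun i => hc (γ i)⁻¹).mono fun ω h => tendsto_subtype_rng.mpr
      (tendsto_pi_nhds.mpr fun i => by
        obtain ⟨l, hl⟩ := h i
        simpa [b] using ((tendsto_add_atTop_iff_nat 1).mpr hl).sub hl))
  have h7 : ∀ i, f ((γ i)⁻¹ * g) = f ((γ i)⁻¹ * 1) := fun i => sub_eq_zero.mp (congrFun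
    (congrArg Subtype.val (Subsingleton.elim (⟨b g, h5 g⟩ : Submodule.span ℝ (range b)) 0)) i)
  have e1 := hc' 1 g
  have e2 := hc' 1 1
  simp only [h7, one_mul] at e1 e2
  rw [e1, e2]

end Pool.Agent.H.MP_0b4a43_pr
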